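import Pool.Agent.MWLQ.StmtsA

/-!
# MWLQ, row LER: renaming in the light end identity, period `n`
-/

namespace Pool.Agent.MWLQ.H52

open Pool.Agent.Helper14_MV
open Pool.Agent.Helper2_MV
open Pool.Agent.MWK (pre)
open Pool.Agent.MWGN (nn Tau gh)
open Pool.Agent.MWGQ (pw Z Gn E0 A0 P0)
open Pool.Agent.MWLE (pin sep con tl tll Sg t1 Fc Fb Fy Fx Fu Fz rz sf k0)
open Pool.Agent.MWLQ

theorem flat_rep' (k c : ℕ) (f : ℕ → List ℕ) : (List.replicate k c).flatMap f = pw k (f c) := by
  induction k with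
  | zero => simp [pw]
  | succ k ih =>
    rw [List.replicate_succ, List.flatMap_cons, ih]
    simp [pw, List.replicate_succ]

theorem sq_modEq (n : ℕ) : (n + 1) * (n + 1) ≡ n + 1 [MOD n] := by
  unfold Nat.ModEq
  have e : (n + 1) * (n + 1) = (n + 1) + n * (n + 1) := by ring
  rw [e, Nat.add_mul_mod_self_left]

theorem pow_lw {n : ℕ} {β : FIC} (hn : 1 ≤ n)
    (h : ∀ (X : List ℕ) (a b : ℕ), 2 ≤ a → 2 ≤ b → a ≡ b [MOD n] → RR β (pw a X) (pw b X))
    (L C : ℕ → List ℕ) (k : ℕ) :
    RR β ((List.range k).flatMap (fun i => pw ((n + 1) * (n + 1)) (C i) ++ L i))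
      (lw n L C k) := by
  induction k with
  | zero => exact RR.refl _
  | succ k ih =>
    unfold lw at ih ⊢
    rw [List.range_succ, List.flatMap_append, List.flatMap_append, List.flatMap_singleton,
      List.flatMap_singleton]
    have h2 : 2 ≤ (n + 1) * (n + 1) := by nlinarith
    exact ih.append ((h (C k) _ _ h2 (by omega) (sq_modEq n)).append (RR.refl _))

theorem ler (hPWX : MWGQ.PwxStmt) : LerStmt := by
  classical
  intro n β hβ m τ hτ x S L C hnd h0 X S' L' C'
  have hsq := (hPWX n β hβ).1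
  rw [List.nodup_cons, List.nodup_append', List.nodup_append'] at hnd
  obtain ⟨hx, hS, ⟨hL, hC, hLC⟩, hSLC⟩ := hnd
  simp only [List.mem_append, List.mem_map, List.mem_range, not_or, not_exists, not_and] at hx
  obtain ⟨hxS, hxL, hxC⟩ := hx
  have hSi : ∀ i ≤ m, ∀ j ≤ m, S i = S j → i = j := fun i hi j hj e =>
    List.inj_on_of_nodup_map hS (List.mem_range.2 (by omega)) (List.mem_range.2 (by omega)) e
  have hLi : ∀ i ≤ m, ∀ j ≤ m, L i = L j → i = j := fun i hi j hj e =>
    List.inj_on_of_nodup_map hL (List.mem_range.2 (by omega)) (List.mem_range.2 (by omega)) e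
  have hCi : ∀ i ≤ m, ∀ j ≤ m, C i = C j → i = j := fun i hi j hj e =>
    List.inj_on_of_nodup_map hC (List.mem_range.2 (by omega)) (List.mem_range.2 (by omega)) e
  have hmem : ∀ (g : ℕ → ℕ) i, i ≤ m → g i ∈ (List.range (m + 1)).map g := fun g i hi =>
    List.mem_map_of_mem (List.mem_range.2 (by omega))
  have hSL : ∀ i ≤ m, ∀ j ≤ m, S i ≠ L j := fun i hi j hj e =>
    hSLC (hmem S i hi) (List.mem_append_left _ (e ▸ hmem L j hj))
  have hSC : ∀ i ≤ m, ∀ j ≤ m, S i ≠ C j := fun i hi j hj e =>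
    hSLC (hmem S i hi) (List.mem_append_right _ (e ▸ hmem C j hj))
  have hLC' : ∀ i ≤ m, ∀ j ≤ m, L i ≠ C j := fun i hi j hj e =>
    hLC (hmem L i hi) (e ▸ hmem C j hj)
  -- the substitution
  obtain ⟨f, hf⟩ : ∃ f : ℕ → List ℕ, f = fun c =>
    if c = x then X
    else if h : ∃ i, i ≤ m ∧ S i = c then S' h.choose
    else if h : ∃ i, i ≤ m ∧ L i = c then L' h.choose
    else if h : ∃ i, i ≤ m ∧ C i = c then C' h.choose else [] := ⟨_, rfl⟩
  have fx : f x = X := by rw [hf]; simp
  have fS : ∀ i ≤ m, f (S i) = S' i := by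
    intro i hi
    have hne : S i ≠ x := hxS i (by omega)
    have he : ∃ j, j ≤ m ∧ S j = S i := ⟨i, hi, rfl⟩
    have hc : he.choose = i := hSi _ he.choose_spec.1 _ hi he.choose_spec.2
    rw [hf]
    simp only [if_neg hne, dif_pos he, hc]
  have fL : ∀ i ≤ m, f (L i) = L' i := by
    intro i hi
    have hne : L i ≠ x := hxL i (by omega)
    have hn1 : ¬ ∃ j, j ≤ m ∧ S j = L i := fun ⟨j, hj, e⟩ => hSL j hj i hi e
    have he : ∃ j, j ≤ m ∧ L j = L i := ⟨i, hi, rfl⟩
    have hc : he.choose = i := hLi _ he.choose_spec.1 _ hi he.choose_spec.2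
    rw [hf]
    simp only [if_neg hne, dif_neg hn1, dif_pos he, hc]
  have fC : ∀ i ≤ m, f (C i) = C' i := by
    intro i hi
    have hne : C i ≠ x := hxC i (by omega)
    have hn1 : ¬ ∃ j, j ≤ m ∧ S j = C i := fun ⟨j, hj, e⟩ => hSC j hj i hi e
    have hn2 : ¬ ∃ j, j ≤ m ∧ L j = C i := fun ⟨j, hj, e⟩ => hLC' j hj i hi e
    have he : ∃ j, j ≤ m ∧ C j = C i := ⟨i, hi, rfl⟩
    have hc : he.choose = i := hCi _ he.choose_spec.1 _ hi he.choose_spec.2
    rw [hf]
    simp only [if_neg hne, dif_neg hn1, dif_neg hn2, dif_pos he, hc]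
  -- the images
  have iT : (tll S L τ).flatMap f = τ.flatMap (fun i => S' i ++ L' i) := by
    unfold tll
    rw [List.flatMap_assoc]
    apply List.flatMap_congr
    intro i hi
    have him : i ≤ m := (hτ.2 i).1 hi
    simp only [List.flatMap_cons, List.flatMap_nil, List.append_nil, fS i him, fL i him]
  have iW : (lw4 n L C (m + 1)).flatMap f =
      (List.range (m + 1)).flatMap (fun i => pw ((n + 1) * (n + 1)) (C' i) ++ L' i) := by
    unfold lw4
    rw [List.flatMap_assoc]
    apply List.flatMap_congr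
    intro i hi
    have him : i ≤ m := by have := List.mem_range.1 hi; omega
    simp only [List.flatMap_append, flat_rep', List.flatMap_cons, List.flatMap_nil,
      List.append_nil, fC i him, fL i him]
  have h1 := h0.sub f
  simp only [List.flatMap_cons, List.flatMap_append, flat_rep', fx, iT, iW] at h1
  have h2 := pow_lw hβ.pos hsq L' C' (m + 1)
  have h3 : ∀ T : List ℕ, RR β ((List.range (m + 1)).flatMap
      (fun i => pw ((n + 1) * (n + 1)) (C' i) ++ L' i) ++ T) (lw n L' C' (m + 1) ++ T) :=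
    fun T => h2.append (RR.refl T)
  have h4 := (RR.refl (β := β) X).append (h3 (X ++ τ.flatMap (fun i => S' i ++ L' i)))
  have h5 := (RR.refl (β := β) (pw (n + 1) X)).append
    (h3 (X ++ τ.flatMap (fun i => S' i ++ L' i)))
  exact β.trans (β.trans h4.symm h1) h5

end Pool.Agent.MWLQ.H52
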